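import Pool.Graph.R_seed8.Helper291.BentMain

/-!
# Sequences with prescribed sets of transform values
-/

set_option autoImplicit false

namespace KS6_73.BT

open Finset Pool.Agent.Helper291.Bent

theorem odlyzko_aux {ι : Type*} [Fintype ι] (A : ι → Finset ℚ) (s : ℕ) (hs : 1 ≤ s)
    (hA : ∀ k, (A k).card ≤ s) (n : ℕ) : ∀ (W : Submodule ℚ (ι → ℚ))
    (X : Finset (ι → ℚ)), Module.finrank ℚ W = n →
    (∀ x ∈ X, ∀ k, x k ∈ A k) →
    (∀ x ∈ X, ∀ y ∈ X, x - y ∈ W) → X.card ≤ s ^ n := by
  classical
  induction n using Nat.strong_induction_on with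
  | _ n ih =>
    intro W X hn hX hW
    by_cases h1 : X.card ≤ 1
    · exact h1.trans (Nat.one_le_pow _ _ hs)
    · push Not at h1
      obtain ⟨x, hx, y, hy, hxy⟩ := Finset.one_lt_card.1 h1
      obtain ⟨k, hk⟩ := Function.ne_iff.1 hxy
      set W' : Submodule ℚ (ι → ℚ) := W ⊓ LinearMap.ker (LinearMap.proj (R := ℚ) (φ := fun _ : ι => ℚ) k) with hW'
      have hlt : W' < W := by
        refine lt_of_le_of_ne inf_le_left ?_
        intro heq
        have h2 : x - y ∈ W' := by rw [heq]; exact hW x hx y hy
        have h3 : (x - y) k = 0 := h2.2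
        rw [Pi.sub_apply, sub_eq_zero] at h3
        exact hk h3
      have hfr : Module.finrank ℚ W' < n := hn ▸ Submodule.finrank_lt_finrank_of_lt hlt
      have key : ∀ c ∈ A k, (X.filter fun z => z k = c).card ≤ s ^ (Module.finrank ℚ W') := by
        intro c _
        refine ih _ hfr W' _ rfl ?_ ?_
        · intro z hz
          exact hX z (Finset.mem_filter.1 hz).1
        · intro z hz z' hz'
          rw [Finset.mem_filter] at hz hz'
          refine ⟨hW z hz.1 z' hz'.1, ?_⟩
          change (z - z') k = 0
          rw [Pi.sub_apply, hz.2, hz'.2, sub_self]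
      calc X.card = ∑ c ∈ A k, (X.filter fun z => z k = c).card :=
            Finset.card_eq_sum_card_fiberwise (fun z hz => hX z hz k)
        _ ≤ ∑ c ∈ A k, s ^ (Module.finrank ℚ W') := Finset.sum_le_sum key
        _ = (A k).card * s ^ (Module.finrank ℚ W') := by rw [Finset.sum_const, smul_eq_mul]
        _ ≤ s * s ^ (Module.finrank ℚ W') := Nat.mul_le_mul_right _ (hA k)
        _ = s ^ (Module.finrank ℚ W' + 1) := by ring
        _ ≤ s ^ n := Nat.pow_le_pow_right hs hfr

/-- The number of integer vectors whose full transform takes values in prescribed sets of at most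
`s` elements and which agree outside `E` is at most `s^|E|`. -/
theorem count_vec (d s : ℕ) (hs : 1 ≤ s) (A : ℕ → Finset ℤ) (hA : ∀ k, (A k).card ≤ s)
    (E : Finset (Fin (2 ^ d))) (V : Finset (Fin (2 ^ d) → ℤ))
    (hV : ∀ v ∈ V, ∀ r < 2 ^ d, bf (ext0 d v) d 0 r ∈ A r)
    (hE : ∀ v ∈ V, ∀ v' ∈ V, ∀ u, u ∉ E → v u = v' u) : V.card ≤ s ^ E.card := by
  classical
  -- the transform
  let F : (Fin (2 ^ d) → ℤ) → (Fin (2 ^ d) → ℚ) := fun v r => (bf (ext0 d v) d 0 (r : ℕ) : ℚ)
  have ext_add : ∀ v v', ext0 d (v + v') = ext0 d v + ext0 d v' := by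
    intro v v'
    funext u
    simp only [ext0, Pi.add_apply]
    split_ifs <;> simp
  have ext_smul : ∀ (a : ℤ) v, ext0 d (a • v) = a • ext0 d v := by
    intro a v
    funext u
    simp only [ext0, Pi.smul_apply]
    split_ifs <;> simp
  have F_add : ∀ v v', F (v + v') = F v + F v' := by
    intro v v'
    funext r
    simp only [F, Pi.add_apply]
    rw [ext_add, J1.bf_add]
    push_cast
    ring
  have F_smul : ∀ (a : ℤ) v, F (a • v) = (a : ℚ) • F v := by
    intro a v
    funext r
    simp only [F, Pi.smul_apply, smul_eq_mul]
    rw [ext_smul, J1.bf_smul]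
    push_cast
    ring
  have F_zero : F 0 = 0 := by
    have := F_smul 0 0
    simpa using this
  have F_sum : ∀ (s : Finset (Fin (2 ^ d))) (g : Fin (2 ^ d) → (Fin (2 ^ d) → ℤ)),
      F (∑ u ∈ s, g u) = ∑ u ∈ s, F (g u) := by
    intro s g
    induction s using Finset.induction_on with
    | empty => simpa using F_zero
    | insert a s ha ih => rw [Finset.sum_insert ha, Finset.sum_insert ha, F_add, ih]
  have F_sub : ∀ v v', F (v - v') = F v - F v' := by
    intro v v'
    have h1 : v - v' = v + (-1 : ℤ) • v' := by
      funext u; simp [sub_eq_add_neg]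
    rw [h1, F_add, F_smul]
    simp [sub_eq_add_neg]
  have F_inj : Function.Injective F := by
    intro v v' h
    have h1 : F (v - v') = 0 := by rw [F_sub, h, sub_self]
    have h2 : ∀ r < 2 ^ d, bf (ext0 d (v - v')) d 0 r = 0 := by
      intro r hr
      have := congrFun h1 ⟨r, hr⟩
      simp only [F, Pi.zero_apply] at this
      exact_mod_cast this
    funext u
    have h3 := J1.bf_inj _ d 0 h2 u.1 u.2
    simp only [ext0, Nat.mul_zero, Nat.zero_add, Fin.is_lt, dif_pos, Fin.eta, Pi.sub_apply] at h3
    omega
  let W : Submodule ℚ (Fin (2 ^ d) → ℚ) :=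
    Submodule.span ℚ ((E.image fun u => F (Pi.single u 1) : Finset (Fin (2 ^ d) → ℚ)) : Set _)
  have hfr : Module.finrank ℚ W ≤ E.card :=
    (finrank_span_finset_le_card _).trans Finset.card_image_le
  have hcard : (V.image F).card ≤ s ^ Module.finrank ℚ W := by
    refine odlyzko_aux (fun k : Fin (2 ^ d) => (A k).image (fun x : ℤ => (x : ℚ))) s hs
      (fun k => Finset.card_image_le.trans (hA k)) _ W (V.image F) rfl ?_ ?_
    · intro x hx k
      obtain ⟨v, hv, rfl⟩ := Finset.mem_image.1 hx
      exact Finset.mem_image.2 ⟨_, hV v hv k.1 k.2, rfl⟩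
    · intro x hx y hy
      obtain ⟨v, hv, rfl⟩ := Finset.mem_image.1 hx
      obtain ⟨v', hv', rfl⟩ := Finset.mem_image.1 hy
      rw [← F_sub]
      have hdec : v - v' = ∑ u ∈ E, (v u - v' u) • (Pi.single u (1 : ℤ) : Fin (2 ^ d) → ℤ) := by
        funext w
        rw [Finset.sum_apply]
        simp only [Pi.smul_apply, Pi.sub_apply, smul_eq_mul, Pi.single_apply, mul_ite, mul_one, mul_zero]
        rw [Finset.sum_ite_eq]
        split_ifs with hw
        · rfl
        · rw [hE v hv v' hv' w hw, sub_self]
      rw [hdec, F_sum]
      refine Submodule.sum_mem _ fun u hu => ?_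
      rw [F_smul]
      refine Submodule.smul_mem _ _ (Submodule.subset_span ?_)
      rw [Finset.mem_coe, Finset.mem_image]
      exact ⟨u, hu, rfl⟩
  rw [Finset.card_image_of_injective _ F_inj] at hcard
  exact hcard.trans (Nat.pow_le_pow_right hs hfr)

variable {Ω : Type*} [Fintype Ω]

/-- the number of points with a given error pattern `P` is at most `s^|P|` -/
theorem pat_count (Z : Ω → ℕ → ℤ) (n l s : ℕ) (hl : l ≤ n) (hs : 1 ≤ s) (A : ℕ → Finset ℤ)
    (hA : ∀ k, (A k).card ≤ s) (hZq : ∀ w, ∀ k < 2 ^ n, bf (Z w) n 0 k ∈ A k)
    (hinj : ∀ w w', (∀ v < 2 ^ n, Z w v = Z w' v) → w = w')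
    (G : ℕ → ℕ → Ω → ℤ)
    (hG : ∀ u k w w', (∀ j < k, bf (Z w) l u j = bf (Z w') l u j) → G u k w = G u k w')
    (P : Finset (ℕ × ℕ)) (hP : P ⊆ (range (2 ^ (n - l))) ×ˢ (range (2 ^ l))) :
    (univ.filter (fun w => pat Z l (2 ^ (n - l)) G w = P)).card ≤ s ^ P.card := by
  classical
  set d : ℕ := n - l with hd
  set S : Finset Ω := univ.filter (fun w => pat Z l (2 ^ d) G w = P) with hS
  set GP : (k : ℕ) → Ω → (Fin k → Fin (2 ^ d) → ℤ) := fun k w j u => bf (Z w) l u j with hGP
  set pk : ℕ → Finset (ℕ × ℕ) := fun k => P.filter (fun p => p.2 = k) with hpk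
  have hstep : ∀ k ≤ 2 ^ l, (S.image (GP k)).card ≤ s ^ (∑ j ∈ range k, (pk j).card) := by
    intro k
    induction k with
    | zero =>
      intro _
      simp only [range_zero, sum_empty, pow_zero]
      apply Finset.card_le_one.mpr
      intro a _ b _
      exact Subsingleton.elim _ _
    | succ k ih =>
      intro hk
      have ih' := ih (by omega)
      -- restriction map
      set res : (Fin (k + 1) → Fin (2 ^ d) → ℤ) → (Fin k → Fin (2 ^ d) → ℤ) :=
        fun g j => g j.castSucc with hres
      have himg : (S.image (GP (k + 1))).image res = S.image (GP k) := by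
        rw [Finset.image_image]
        congr 1
      have hfib : ∀ γ ∈ (S.image (GP (k + 1))).image res,
          ((S.image (GP (k + 1))).filter (fun g => res g = γ)).card ≤ s ^ (pk k).card := by
        intro γ _
        set E : Finset (Fin (2 ^ d)) := univ.filter (fun u => ((u : ℕ), k) ∈ P) with hE
        set V : Finset (Fin (2 ^ d) → ℤ) :=
          ((S.image (GP (k + 1))).filter (fun g => res g = γ)).image (fun g => g (Fin.last k))
          with hV
        have hVcard : ((S.image (GP (k + 1))).filter (fun g => res g = γ)).card = V.card := by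
          rw [hV, Finset.card_image_of_injOn]
          intro g hg g' hg' hgg
          rw [Finset.mem_coe, Finset.mem_filter] at hg hg'
          funext j
          refine Fin.lastCases ?_ ?_ j
          · exact hgg
          · intro i
            have h1 := congrFun hg.2 i
            have h2 := congrFun hg'.2 i
            simp only [hres] at h1 h2
            rw [h1, h2]
        have hEcard : E.card ≤ (pk k).card := by
          apply Finset.card_le_card_of_injOn (fun u : Fin (2 ^ d) => ((u : ℕ), k))
          · intro u hu
            rw [Finset.mem_coe, hE, Finset.mem_filter] at hu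
            rw [Finset.mem_coe]
            simp only [hpk]
            rw [Finset.mem_filter]
            exact ⟨hu.2, rfl⟩
          · intro u _ u' _ huu
            simp only [Prod.mk.injEq, and_true] at huu
            exact Fin.ext huu
        have hmem : ∀ v ∈ V, ∃ w ∈ S, GP (k + 1) w ∈ (S.image (GP (k + 1))).filter
            (fun g => res g = γ) ∧ v = fun u : Fin (2 ^ d) => bf (Z w) l u k := by
          intro v hv
          rw [hV, Finset.mem_image] at hv
          obtain ⟨g, hg, hgv⟩ := hv
          have hg' := hg
          rw [Finset.mem_filter, Finset.mem_image] at hg'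
          obtain ⟨⟨w, hwS, hwg⟩, _⟩ := hg'
          refine ⟨w, hwS, by rw [hwg]; exact hg, ?_⟩
          rw [← hgv, ← hwg]
          funext u
          simp only [hGP, Fin.val_last]
        have hVb : V.card ≤ s ^ E.card := by
          apply count_vec d s hs (fun r => A (2 ^ d * k + r)) (fun r => hA _) E V
          · intro v hv r hr
            obtain ⟨w, _, _, hvw⟩ := hmem v hv
            have e1 : bf (ext0 d v) d 0 r = bf (fun u => bf (Z w) l u k) d 0 r := by
              apply bf_congr
              intro b hb
              simp only [mul_zero, zero_add]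
              unfold ext0
              rw [dif_pos hb, hvw]
            have e2 := bf_comp (Z w) l k d 0 r hr
            rw [e1, ← e2]
            have hld : l + d = n := by omega
            rw [hld]
            apply hZq
            have h1 : 2 ^ d * k + r < 2 ^ d * (k + 1) := by
              rw [mul_add, mul_one]; omega
            have h2 : 2 ^ d * (k + 1) ≤ 2 ^ d * 2 ^ l := Nat.mul_le_mul_left _ hk
            have h3 : (2 : ℕ) ^ d * 2 ^ l = 2 ^ n := by
              rw [← pow_add]
              congr 1
              omega
            omega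
          · intro v hv v' hv' u hu
            obtain ⟨w, hwS, hwf, hvw⟩ := hmem v hv
            obtain ⟨w', hwS', hwf', hvw'⟩ := hmem v' hv'
            rw [Finset.mem_filter] at hwf hwf'
            have hpast : ∀ j < k, bf (Z w) l u j = bf (Z w') l u j := by
              intro j hj
              have h1 := congrFun (congrFun hwf.2 ⟨j, hj⟩) u
              have h2 := congrFun (congrFun hwf'.2 ⟨j, hj⟩) u
              simp only [hres, hGP, Fin.val_castSucc] at h1 h2
              rw [h1, h2]
            have hgu := hG u k w w' hpast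
            have hnotP : ((u : ℕ), k) ∉ P := by
              intro hcon
              apply hu
              rw [hE, Finset.mem_filter]
              exact ⟨Finset.mem_univ _, hcon⟩
            have hval : ∀ x ∈ S, bf (Z x) l u k = G u k x := by
              intro x hx
              rw [hS, Finset.mem_filter] at hx
              by_contra hcon
              apply hnotP
              rw [← hx.2]
              unfold pat
              rw [Finset.mem_filter, Finset.mem_product, Finset.mem_range, Finset.mem_range]
              exact ⟨⟨u.2, by simpa using (by omega : k < 2 ^ l)⟩, hcon⟩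
            rw [hvw, hvw']
            simp only
            rw [hval w hwS, hval w' hwS', hgu]
        rw [hVcard]
        exact le_trans hVb (Nat.pow_le_pow_right hs hEcard)
      have hmul := Finset.card_le_mul_card_image (f := res) (S.image (GP (k + 1)))
        (s ^ (pk k).card) hfib
      rw [himg] at hmul
      calc (S.image (GP (k + 1))).card ≤ s ^ (pk k).card * (S.image (GP k)).card := hmul
        _ ≤ s ^ (pk k).card * s ^ (∑ j ∈ range k, (pk j).card) := Nat.mul_le_mul_left _ ih'
        _ = s ^ (∑ j ∈ range (k + 1), (pk j).card) := by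
            rw [← pow_add, Finset.sum_range_succ]
            congr 1
            ring
  -- the last map is injective
  have hlast : (S.image (GP (2 ^ l))).card = S.card := by
    apply Finset.card_image_of_injOn
    intro w _ w' _ hww
    apply hinj
    intro v hv
    have hblock : ∀ u < 2 ^ d, ∀ b < 2 ^ l, Z w (2 ^ l * u + b) = Z w' (2 ^ l * u + b) := by
      intro u hu b hb
      have h0 : ∀ r < 2 ^ l, bf (Z w - Z w') l u r = 0 := by
        intro r hr
        rw [bf_sub]
        have := congrFun (congrFun hww ⟨r, hr⟩) ⟨u, hu⟩
        simp only [hGP] at this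
        rw [this, sub_self]
      have h1 := J1.bf_inj (Z w - Z w') l u h0 b hb
      rw [Pi.sub_apply, sub_eq_zero] at h1
      exact h1
    have h2 := hblock (v / 2 ^ l) (by
      rw [Nat.div_lt_iff_lt_mul (by positivity)]
      rw [← pow_add]
      have : d + l = n := by omega
      rw [this]
      exact hv) (v % 2 ^ l) (Nat.mod_lt _ (by positivity))
    rw [Nat.div_add_mod] at h2
    exact h2
  have hfin := hstep (2 ^ l) le_rfl
  rw [hlast] at hfin
  refine le_trans hfin (Nat.pow_le_pow_right hs ?_)
  -- sum of the fibres of P
  have : P.card = ∑ j ∈ range (2 ^ l), (pk j).card := by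
    apply Finset.card_eq_sum_card_fiberwise
    intro p hp
    have := hP hp
    rw [Finset.mem_product] at this
    exact this.2
  omega

end KS6_73.BT
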