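import Pool.Agent.KS6_73.BT.Count

/-!
# Families of sign sequences with prescribed transform values are small
-/

set_option autoImplicit false

namespace KS6_73.BT

open Finset Pool.Agent.Helper291.Bent

theorem family_small (s : ℕ) (hs : 1 ≤ s) (ε : ℝ) (hε : 0 < ε) : ∃ C0 : ℕ,
    ∀ (Ω : Type) [Fintype Ω] [Nonempty Ω] (Z : Ω → ℕ → ℤ) (n : ℕ) (A : ℕ → Finset ℤ),
      C0 ≤ n → (∀ k, (A k).card ≤ s) → (∀ w u, Z w u = 1 ∨ Z w u = -1) →
      (∀ w, ∀ k < 2 ^ n, bf (Z w) n 0 k ∈ A k) →
      (∀ w w', (∀ v < 2 ^ n, Z w v = Z w' v) → w = w') →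
      (Fintype.card Ω : ℝ) ≤ (2 : ℝ) ^ (ε * 2 ^ n) := by
  classical
  have hlog2 : 0 < Real.log 2 := Real.log_pos (by norm_num)
  have hsr : (1 : ℝ) ≤ s := by exact_mod_cast hs
  set ε' : ℝ := min 1 (ε * Real.log 2 / 2) with hε'
  have hε'0 : 0 < ε' := lt_min one_pos (by positivity)
  have hε'1 : ε' ≤ 1 := min_le_left _ _
  have hε'2 : ε' ≤ ε * Real.log 2 / 2 := min_le_right _ _
  set lam : ℝ := min (ε' / (2 * s)) (Real.exp (-1)) with hlam
  have hlam0 : 0 < lam := lt_min (by positivity) (Real.exp_pos _)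
  have hlams : s * lam ≤ ε' / 2 := by
    have h1 : lam ≤ ε' / (2 * s) := min_le_left _ _
    calc (s : ℝ) * lam ≤ s * (ε' / (2 * s)) := mul_le_mul_of_nonneg_left h1 (by linarith)
      _ = ε' / 2 := by field_simp
  set L : ℝ := -Real.log lam with hL
  have hL1 : 1 ≤ L := by
    have h1 : lam ≤ Real.exp (-1) := min_le_right _ _
    have h2 := Real.log_le_log hlam0 h1
    rw [Real.log_exp] at h2
    linarith
  have hlamL : lam = Real.exp (-L) := by rw [hL, neg_neg, Real.exp_log hlam0]
  set θ : ℝ := ε' / (4 * L) with hθ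
  have hθ0 : 0 < θ := by positivity
  have hθ1 : θ ≤ 1 := by
    rw [hθ, div_le_one (by positivity)]
    linarith
  have hLθ : 2 * L * θ = ε' / 2 := by rw [hθ]; field_simp; ring
  obtain ⟨C0, hC0⟩ := polar θ hθ0 hθ1
  obtain ⟨C1, hC1⟩ : ∃ C1 : ℕ, 2 / ε < 2 ^ C1 := pow_unbounded_of_one_lt _ (by norm_num)
  refine ⟨max C0 C1, ?_⟩
  intro Ω _ _ Z n A hn hA hZ hZq hinj
  obtain ⟨l, hl, G, hG, herr⟩ := hC0 Ω Z n ((le_max_left _ _).trans hn) hZ
  set N : ℝ := (2 : ℝ) ^ n with hN
  have hN0 : 0 < N := by positivity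
  have hNε : 2 ≤ ε * N := by
    have h1 : (2 : ℝ) ^ C1 ≤ N := pow_le_pow_right₀ (by norm_num) ((le_max_right _ _).trans hn)
    have h2 : 2 / ε ≤ N := hC1.le.trans h1
    rw [div_le_iff₀ hε] at h2
    linarith
  set R : ℕ := 2 ^ (n - l) with hR
  set U : Finset (ℕ × ℕ) := (range R) ×ˢ (range (2 ^ l)) with hU
  have hUcard : U.card = 2 ^ n := by
    rw [hU, Finset.card_product, Finset.card_range, Finset.card_range, hR, ← pow_add]
    congr 1
    omega
  set e : Ω → ℕ := fun w => (pat Z l R G w).card with he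
  have hesum : ∑ w, (e w : ℝ) ≤ θ * N * Fintype.card Ω := by
    have h1 : ∑ w, (e w : ℝ) = ∑ u ∈ range R, ∑ k ∈ range (2 ^ l),
          ((univ.filter (fun w => bf (Z w) l u k ≠ G u k w)).card : ℝ) := by
      simp only [he, pat]
      have h2 : ∀ w : Ω, ((((range R) ×ˢ (range (2 ^ l))).filter
          (fun p => bf (Z w) l p.1 p.2 ≠ G p.1 p.2 w)).card : ℝ)
          = ∑ u ∈ range R, ∑ k ∈ range (2 ^ l), (if bf (Z w) l u k ≠ G u k w then (1 : ℝ) else 0) := by
        intro w
        rw [Finset.card_filter]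
        push_cast
        rw [Finset.sum_product]
      rw [Finset.sum_congr rfl (fun w _ => h2 w)]
      rw [Finset.sum_comm]
      apply Finset.sum_congr rfl
      intro u _
      rw [Finset.sum_comm]
      apply Finset.sum_congr rfl
      intro k _
      rw [Finset.card_filter]
      push_cast
      rfl
    rw [h1]
    exact herr
  -- Markov
  set good : Finset Ω := univ.filter (fun w => (e w : ℝ) ≤ 2 * θ * N) with hgood
  set bad : Finset Ω := univ.filter (fun w => ¬ (e w : ℝ) ≤ 2 * θ * N) with hbad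
  have hsplit : (good.card : ℝ) + bad.card = Fintype.card Ω := by
    have := Finset.card_filter_add_card_filter_not (s := (univ : Finset Ω))
      (fun w => (e w : ℝ) ≤ 2 * θ * N)
    rw [← hbad, ← hgood, Finset.card_univ] at this
    exact_mod_cast this
  have hmarkov : (bad.card : ℝ) ≤ Fintype.card Ω / 2 := by
    have h1 : (2 * θ * N) * bad.card ≤ ∑ w, (e w : ℝ) := by
      calc (2 * θ * N) * bad.card = ∑ w ∈ bad, (2 * θ * N) := by
            rw [Finset.sum_const, nsmul_eq_mul]; ring
        _ ≤ ∑ w ∈ bad, (e w : ℝ) := by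
            apply Finset.sum_le_sum
            intro w hw
            rw [hbad, Finset.mem_filter] at hw
            exact (not_le.1 hw.2).le
        _ ≤ ∑ w, (e w : ℝ) := by
            apply Finset.sum_le_sum_of_subset_of_nonneg (Finset.subset_univ _)
            intro w _ _
            exact Nat.cast_nonneg _
    have h2 : (θ * N) * (2 * bad.card) ≤ (θ * N) * Fintype.card Ω := by
      calc (θ * N) * (2 * bad.card) = (2 * θ * N) * bad.card := by ring
        _ ≤ _ := h1
        _ ≤ _ := hesum
    have h3 := le_of_mul_le_mul_left h2 (by positivity)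
    linarith
  have hgoodge : (Fintype.card Ω : ℝ) / 2 ≤ good.card := by linarith
  -- weighted count
  have hweight : ∑ w : Ω, lam ^ (e w) ≤ Real.exp (ε' / 2 * N) := by
    have h1 : ∑ w : Ω, lam ^ (e w)
        = ∑ P ∈ U.powerset, ∑ w ∈ univ.filter (fun w => pat Z l R G w = P), lam ^ (e w) := by
      rw [Finset.sum_fiberwise_of_maps_to]
      intro w _
      rw [Finset.mem_powerset]
      exact Finset.filter_subset _ _
    rw [h1]
    calc ∑ P ∈ U.powerset, ∑ w ∈ univ.filter (fun w => pat Z l R G w = P), lam ^ (e w)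
        ≤ ∑ P ∈ U.powerset, (s * lam) ^ P.card * 1 ^ (U.card - P.card) := by
          apply Finset.sum_le_sum
          intro P hP
          rw [Finset.mem_powerset] at hP
          have h2 := pat_count Z n l s hl hs A hA hZq hinj G hG P hP
          have h3 : ∑ w ∈ univ.filter (fun w => pat Z l R G w = P), lam ^ (e w)
              = ((univ.filter (fun w => pat Z l R G w = P)).card : ℝ) * lam ^ P.card := by
            rw [← nsmul_eq_mul, ← Finset.sum_const]
            apply Finset.sum_congr rfl
            intro w hw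
            rw [Finset.mem_filter] at hw
            change lam ^ (pat Z l R G w).card = lam ^ P.card
            rw [hw.2]
          rw [h3, one_pow, mul_one, mul_pow]
          have h4 : ((univ.filter (fun w => pat Z l R G w = P)).card : ℝ) ≤ (s : ℝ) ^ P.card := by
            exact_mod_cast h2
          exact mul_le_mul_of_nonneg_right h4 (by positivity)
      _ = (s * lam + 1) ^ U.card := Finset.sum_pow_mul_eq_add_pow _ _ _
      _ = (s * lam + 1) ^ (2 ^ n) := by rw [hUcard]
      _ ≤ (Real.exp (ε' / 2)) ^ (2 ^ n) := by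
          apply pow_le_pow_left₀ (by positivity)
          have := Real.add_one_le_exp (ε' / 2)
          linarith
      _ = Real.exp (ε' / 2 * N) := by
          rw [← Real.exp_nat_mul]
          congr 1
          rw [hN]
          push_cast
          ring
  have hlow : (good.card : ℝ) * Real.exp (-(ε' / 2 * N)) ≤ ∑ w : Ω, lam ^ (e w) := by
    calc (good.card : ℝ) * Real.exp (-(ε' / 2 * N)) = ∑ w ∈ good, Real.exp (-(ε' / 2 * N)) := by
          rw [Finset.sum_const, nsmul_eq_mul]
      _ ≤ ∑ w ∈ good, lam ^ (e w) := by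
          apply Finset.sum_le_sum
          intro w hw
          rw [hgood, Finset.mem_filter] at hw
          rw [hlamL, ← Real.exp_nat_mul]
          apply Real.exp_le_exp.2
          have h1 : L * (e w : ℝ) ≤ L * (2 * θ * N) :=
            mul_le_mul_of_nonneg_left hw.2 (by linarith)
          have h2 : L * (2 * θ * N) = ε' / 2 * N := by rw [← hLθ]; ring
          linarith
      _ ≤ ∑ w : Ω, lam ^ (e w) := by
          apply Finset.sum_le_sum_of_subset_of_nonneg (Finset.subset_univ _)
          intro w _ _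
          positivity
  have hgood2 : (good.card : ℝ) ≤ Real.exp (ε' * N) := by
    have h1 := hlow.trans hweight
    have h2 : (good.card : ℝ) = (good.card : ℝ) * Real.exp (-(ε' / 2 * N)) *
        Real.exp (ε' / 2 * N) := by
      rw [mul_assoc, ← Real.exp_add, neg_add_cancel, Real.exp_zero, mul_one]
    rw [h2]
    calc _ ≤ Real.exp (ε' / 2 * N) * Real.exp (ε' / 2 * N) :=
          mul_le_mul_of_nonneg_right h1 (Real.exp_pos _).le
      _ = Real.exp (ε' * N) := by rw [← Real.exp_add]; congr 1; ring
  calc (Fintype.card Ω : ℝ) ≤ 2 * good.card := by linarith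
    _ ≤ 2 * Real.exp (ε' * N) := by linarith
    _ ≤ Real.exp (Real.log 2) * Real.exp (ε * Real.log 2 / 2 * N) := by
        rw [Real.exp_log (by norm_num)]
        apply mul_le_mul_of_nonneg_left _ (by norm_num)
        apply Real.exp_le_exp.2
        exact mul_le_mul_of_nonneg_right hε'2 hN0.le
    _ = Real.exp (Real.log 2 * (1 + ε * N / 2)) := by rw [← Real.exp_add]; congr 1; ring
    _ ≤ Real.exp (Real.log 2 * (ε * N)) := by
        apply Real.exp_le_exp.2
        apply mul_le_mul_of_nonneg_left _ hlog2.le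
        linarith
    _ = (2 : ℝ) ^ (ε * 2 ^ n) := by rw [Real.rpow_def_of_pos (by norm_num)]

end KS6_73.BT
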