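import Mathlib

/-!
# Lower tails of the binomial coefficients, and central binomial coefficients
-/

set_option autoImplicit false

namespace KS6_73.BT

open Finset

lemma central_sq (m : ℕ) (hm : 1 ≤ m) : 16 ^ m ≤ 4 * m * (Nat.centralBinom m) ^ 2 := by
  induction m, hm using Nat.le_induction with
  | base => simp [Nat.centralBinom]
  | succ m hm ih =>
    have h1 := Nat.succ_mul_centralBinom_succ m
    have h2 : (m + 1) ^ 2 * 16 ^ (m + 1) ≤
        (m + 1) ^ 2 * (4 * (m + 1) * (Nat.centralBinom (m + 1)) ^ 2) := by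
      calc (m + 1) ^ 2 * 16 ^ (m + 1) = 16 * (m + 1) ^ 2 * 16 ^ m := by ring
        _ ≤ 16 * (m + 1) ^ 2 * (4 * m * (Nat.centralBinom m) ^ 2) := Nat.mul_le_mul_left _ ih
        _ = (64 * m * (m + 1) ^ 2) * (Nat.centralBinom m) ^ 2 := by ring
        _ ≤ (16 * (m + 1) * (2 * m + 1) ^ 2) * (Nat.centralBinom m) ^ 2 := by
            apply Nat.mul_le_mul_right
            nlinarith
        _ = 4 * (m + 1) * (2 * (2 * m + 1) * Nat.centralBinom m) ^ 2 := by ring
        _ = 4 * (m + 1) * ((m + 1) * Nat.centralBinom (m + 1)) ^ 2 := by rw [h1]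
        _ = _ := by ring
    exact Nat.le_of_mul_le_mul_left h2 (by positivity)

/-- the middle binomial coefficient -/
lemma middle (n : ℕ) (hn : 2 ≤ n) : (2 : ℝ) ^ n ≤ 4 * Real.sqrt n * (n.choose (n / 2) : ℝ) := by
  have hm : 1 ≤ n / 2 := by omega
  have h1 := central_sq (n / 2) hm
  have h2 : Nat.centralBinom (n / 2) ≤ n.choose (n / 2) := by
    rw [Nat.centralBinom]
    exact Nat.choose_le_choose _ (by omega)
  have h3 : (4 : ℕ) ^ n ≤ 16 * n * (n.choose (n / 2)) ^ 2 := by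
    have h4 : (4 : ℕ) ^ n ≤ 4 * 16 ^ (n / 2) := by
      calc (4 : ℕ) ^ n ≤ 4 ^ (2 * (n / 2) + 1) := Nat.pow_le_pow_right (by norm_num) (by omega)
        _ = 4 * 16 ^ (n / 2) := by rw [pow_succ, pow_mul]; norm_num; ring
    calc (4 : ℕ) ^ n ≤ 4 * 16 ^ (n / 2) := h4
      _ ≤ 4 * (4 * (n / 2) * (Nat.centralBinom (n / 2)) ^ 2) := Nat.mul_le_mul_left _ h1
      _ ≤ 4 * (4 * n * (n.choose (n / 2)) ^ 2) := by
          apply Nat.mul_le_mul_left
          apply Nat.mul_le_mul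
          · exact Nat.mul_le_mul_left _ (Nat.div_le_self _ _)
          · exact Nat.pow_le_pow_left h2 2
      _ = _ := by ring
  have h5 : ((2 : ℝ) ^ n) ^ 2 ≤ (4 * Real.sqrt n * (n.choose (n / 2) : ℝ)) ^ 2 := by
    have h6 : ((4 : ℕ) ^ n : ℝ) ≤ 16 * n * (n.choose (n / 2) : ℝ) ^ 2 := by exact_mod_cast h3
    calc ((2 : ℝ) ^ n) ^ 2 = (4 : ℝ) ^ n := by rw [← pow_mul, mul_comm, pow_mul]; norm_num
      _ ≤ 16 * n * (n.choose (n / 2) : ℝ) ^ 2 := by exact_mod_cast h6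
      _ = (4 * Real.sqrt n * (n.choose (n / 2) : ℝ)) ^ 2 := by
          rw [mul_pow, mul_pow, Real.sq_sqrt (Nat.cast_nonneg n)]; ring
  exact (sq_le_sq₀ (by positivity) (by positivity)).1 h5

/-- one step down -/
lemma step (n r K k : ℕ) (hr : 1 ≤ r) (hrn : r * r ≤ n) (hM : (K + 1) * r ≤ n / 2)
    (hk : n / 2 - (K + 1) * r ≤ k) (hk' : k < n / 2) :
    (1 - (4 * K + 6 : ℝ) / r) * (n.choose (k + 1) : ℝ) ≤ n.choose k := by
  have h1 := Nat.choose_succ_right_eq n k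
  have hkn : k < n := by omega
  have h2 : ((n.choose (k + 1) : ℝ)) * (k + 1) = n.choose k * ((n : ℝ) - k) := by
    have h3 : ((n - k : ℕ) : ℝ) = (n : ℝ) - k := Nat.cast_sub hkn.le
    rw [← h3]
    exact_mod_cast h1
  have hr' : (1 : ℝ) ≤ r := by exact_mod_cast hr
  have hrn' : (r : ℝ) * r ≤ n := by exact_mod_cast hrn
  have hh : (n : ℝ) - 1 ≤ 2 * ((n / 2 : ℕ) : ℝ) := by
    have : n ≤ 2 * (n / 2) + 1 := by omega
    have : (n : ℝ) ≤ 2 * ((n / 2 : ℕ) : ℝ) + 1 := by exact_mod_cast this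
    linarith
  have hh2 : 2 * ((n / 2 : ℕ) : ℝ) ≤ n := by
    have : 2 * (n / 2) ≤ n := by omega
    exact_mod_cast this
  have hk1 : ((n / 2 : ℕ) : ℝ) - (K + 1) * r ≤ k := by
    have : n / 2 ≤ k + (K + 1) * r := by omega
    have : ((n / 2 : ℕ) : ℝ) ≤ k + (K + 1) * r := by exact_mod_cast this
    linarith
  have hk2 : (k : ℝ) + 1 ≤ ((n / 2 : ℕ) : ℝ) := by exact_mod_cast hk'
  have hpos : (0 : ℝ) < (n : ℝ) - k := by
    have : (k : ℝ) < n := by exact_mod_cast hkn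
    linarith
  have hc : (0 : ℝ) ≤ (n.choose (k + 1) : ℝ) := Nat.cast_nonneg _
  -- (1 - B / r) (n - k) ≤ k + 1
  have key : (1 - (4 * K + 6 : ℝ) / r) * ((n : ℝ) - k) ≤ k + 1 := by
    have hr0 : (0 : ℝ) < r := by linarith
    have h4 : (1 - (4 * K + 6 : ℝ) / r) * ((n : ℝ) - k) =
        ((n : ℝ) - k) - (4 * K + 6 : ℝ) * (((n : ℝ) - k) / r) := by
      field_simp
    rw [h4]
    have h5 : (r : ℝ) / 2 ≤ ((n : ℝ) - k) / r := by
      rw [div_le_div_iff₀ (by norm_num) hr0]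
      nlinarith
    have hK0 : (0 : ℝ) ≤ K := Nat.cast_nonneg K
    have h6 : (4 * K + 6 : ℝ) * (r / 2) ≤ (4 * K + 6 : ℝ) * (((n : ℝ) - k) / r) :=
      mul_le_mul_of_nonneg_left h5 (by positivity)
    nlinarith
  have h7 : ((1 - (4 * K + 6 : ℝ) / r) * (n.choose (k + 1) : ℝ)) * ((n : ℝ) - k) ≤
      (n.choose k : ℝ) * ((n : ℝ) - k) := by
    rw [← h2]
    calc ((1 - (4 * K + 6 : ℝ) / r) * (n.choose (k + 1) : ℝ)) * ((n : ℝ) - k)
        = (n.choose (k + 1) : ℝ) * ((1 - (4 * K + 6 : ℝ) / r) * ((n : ℝ) - k)) := by ring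
      _ ≤ (n.choose (k + 1) : ℝ) * (k + 1) := mul_le_mul_of_nonneg_left key hc
  exact le_of_mul_le_mul_right h7 hpos

lemma steps (n r K : ℕ) (hr : 1 ≤ r) (hB : (4 * K + 6 : ℝ) / r ≤ 1) (hrn : r * r ≤ n)
    (hM : (K + 1) * r ≤ n / 2) (j : ℕ) (hj : j ≤ (K + 1) * r) :
    (1 - (4 * K + 6 : ℝ) / r) ^ j * (n.choose (n / 2) : ℝ) ≤ n.choose (n / 2 - j) := by
  induction j with
  | zero => simp
  | succ j ih =>
    have h1 := ih (by omega)
    have h2 := step n r K (n / 2 - (j + 1)) hr hrn hM (by omega) (by omega)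
    have h3 : n / 2 - (j + 1) + 1 = n / 2 - j := by omega
    rw [h3] at h2
    calc (1 - (4 * K + 6 : ℝ) / r) ^ (j + 1) * (n.choose (n / 2) : ℝ)
        = (1 - (4 * K + 6 : ℝ) / r) * ((1 - (4 * K + 6 : ℝ) / r) ^ j * (n.choose (n / 2) : ℝ)) := by
          ring
      _ ≤ (1 - (4 * K + 6 : ℝ) / r) * (n.choose (n / 2 - j) : ℝ) :=
          mul_le_mul_of_nonneg_left h1 (by linarith)
      _ ≤ _ := h2

/-- **Lower tail.** -/
theorem tail (c : ℝ) (hc : 0 ≤ c) : ∃ a : ℝ, 0 < a ∧ ∃ n₀ : ℕ, ∀ n : ℕ, n₀ ≤ n → ∀ d : ℕ,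
    (n : ℝ) / 2 - c * Real.sqrt n ≤ d →
    a * 2 ^ n ≤ (Fintype.card {S : Finset (Fin n) // S.card ≤ d} : ℝ) := by
  classical
  obtain ⟨K, hK⟩ := exists_nat_ge (c + 1)
  set B : ℝ := 4 * K + 6 with hB
  have hlim := Real.tendsto_one_add_div_pow_exp (-B)
  have hev : ∀ᶠ r : ℕ in Filter.atTop, Real.exp (-B) / 2 < (1 + -B / r) ^ r :=
    hlim.eventually_const_lt (by have := Real.exp_pos (-B); linarith)
  obtain ⟨r₀, hr₀⟩ := Filter.eventually_atTop.1 hev
  obtain ⟨r₁, hr₁⟩ := exists_nat_ge (B + c + 10)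
  set κ : ℝ := (Real.exp (-B) / 2) ^ (K + 1) with hκ
  have hκ0 : 0 < κ := by positivity
  refine ⟨κ / 8, by positivity, (max r₀ (max r₁ (2 * K + 8))) ^ 2, fun n hn d hd => ?_⟩
  set R := max r₀ (max r₁ (2 * K + 8)) with hR
  set r := Nat.sqrt n with hr
  have hRr : R ≤ r := by
    rw [hr, Nat.le_sqrt, ← sq]
    exact hn
  have hr0 : r₀ ≤ r := (le_max_left _ _).trans hRr
  have hr1 : r₁ ≤ r := ((le_max_left _ _).trans (le_max_right _ _)).trans hRr
  have hr2 : 2 * K + 8 ≤ r := ((le_max_right _ _).trans (le_max_right _ _)).trans hRr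
  have hrn : r * r ≤ n := Nat.sqrt_le n
  have hrn' : n < (r + 1) * (r + 1) := Nat.lt_succ_sqrt n
  have hrB : B + c + 10 ≤ (r : ℝ) := hr₁.trans (by exact_mod_cast hr1)
  have hrpos : (0 : ℝ) < r := by
    have : 0 < r := by omega
    exact_mod_cast this
  have hM : (K + 1) * r ≤ n / 2 := by
    rw [Nat.le_div_iff_mul_le (by norm_num)]
    nlinarith
  have hB1 : (4 * K + 6 : ℝ) / r ≤ 1 := by
    rw [div_le_one hrpos]
    linarith
  have hsq : Real.sqrt n ≤ r + 1 := by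
    rw [Real.sqrt_le_left (by positivity)]
    have : n ≤ (r + 1) ^ 2 := by rw [sq]; exact hrn'.le
    exact_mod_cast this
  -- the window
  have hwin : ∀ j ∈ Finset.Ico (K * r) (K * r + r), κ * (n.choose (n / 2) : ℝ) ≤
      (n.choose (n / 2 - j) : ℝ) := by
    intro j hj
    rw [Finset.mem_Ico] at hj
    have hjM : j ≤ (K + 1) * r := by nlinarith
    refine le_trans ?_ (steps n r K (by omega) hB1 hrn hM j hjM)
    apply mul_le_mul_of_nonneg_right _ (Nat.cast_nonneg _)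
    have h1 : (1 - (4 * K + 6 : ℝ) / r) ^ ((K + 1) * r) ≤ (1 - (4 * K + 6 : ℝ) / r) ^ j :=
      pow_le_pow_of_le_one (by linarith) (by
        have : (0 : ℝ) ≤ (4 * K + 6 : ℝ) / r := by positivity
        linarith) hjM
    refine le_trans ?_ h1
    rw [mul_comm (K + 1) r, pow_mul, hκ]
    apply pow_le_pow_left₀ (by positivity)
    have h2 := (hr₀ r hr0).le
    have h3 : (1 + -B / (r : ℝ)) = 1 - (4 * K + 6 : ℝ) / r := by rw [hB]; ring
    rw [h3] at h2
    exact h2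
  -- the count
  have hcount : ∑ j ∈ Finset.Ico (K * r) (K * r + r), n.choose (n / 2 - j) ≤
      Fintype.card {S : Finset (Fin n) // S.card ≤ d} := by
    rw [Fintype.card_subtype]
    have h1 : ∀ j ∈ Finset.Ico (K * r) (K * r + r), n.choose (n / 2 - j) =
        (Finset.powersetCard (n / 2 - j) (univ : Finset (Fin n))).card := by
      intro j _
      rw [Finset.card_powersetCard, Finset.card_univ, Fintype.card_fin]
    rw [Finset.sum_congr rfl h1, ← Finset.card_biUnion]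
    · apply Finset.card_le_card
      intro S hS
      rw [Finset.mem_biUnion] at hS
      obtain ⟨j, hj, hS⟩ := hS
      rw [Finset.mem_powersetCard] at hS
      rw [Finset.mem_filter]
      refine ⟨mem_univ _, ?_⟩
      rw [hS.2]
      rw [Finset.mem_Ico] at hj
      have h4 : ((n / 2 - j : ℕ) : ℝ) ≤ d := by
        refine le_trans ?_ hd
        have hjn : j ≤ n / 2 := by nlinarith
        rw [Nat.cast_sub hjn]
        have h5 : 2 * ((n / 2 : ℕ) : ℝ) ≤ n := by
          have : 2 * (n / 2) ≤ n := by omega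
          exact_mod_cast this
        have h6 : (K : ℝ) * r ≤ j := by exact_mod_cast hj.1
        have h7 : c * Real.sqrt n ≤ c * (r + 1) := mul_le_mul_of_nonneg_left hsq hc
        have h8 : c * (r + 1 : ℝ) ≤ K * r := by nlinarith
        linarith
      exact_mod_cast h4
    · intro i hi j hj hij
      rw [Finset.coe_Ico, Set.mem_Ico] at hi hj
      have hi' : i ≤ n / 2 := by nlinarith
      have hj' : j ≤ n / 2 := by nlinarith
      apply Finset.disjoint_left.2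
      intro S hS hS'
      rw [Finset.mem_powersetCard] at hS hS'
      apply hij
      omega
  have hsum : (r : ℝ) * (κ * (n.choose (n / 2) : ℝ)) ≤
      (Fintype.card {S : Finset (Fin n) // S.card ≤ d} : ℝ) := by
    refine le_trans ?_ (Nat.cast_le.2 hcount)
    rw [Nat.cast_sum]
    have h1 := Finset.card_nsmul_le_sum (Finset.Ico (K * r) (K * r + r))
      (fun j => (n.choose (n / 2 - j) : ℝ)) _ hwin
    rw [Nat.card_Ico, Nat.add_sub_cancel_left, nsmul_eq_mul] at h1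
    exact h1
  refine le_trans ?_ hsum
  have hmid := middle n (by nlinarith)
  have h9 : Real.sqrt n ≤ 2 * r := by
    have : (1 : ℝ) ≤ r := by linarith
    linarith
  calc κ / 8 * 2 ^ n ≤ κ / 8 * (4 * Real.sqrt n * (n.choose (n / 2) : ℝ)) :=
        mul_le_mul_of_nonneg_left hmid (by positivity)
    _ ≤ κ / 8 * (4 * (2 * r) * (n.choose (n / 2) : ℝ)) := by
        apply mul_le_mul_of_nonneg_left _ (by positivity)
        apply mul_le_mul_of_nonneg_right _ (Nat.cast_nonneg _)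
        linarith
    _ = r * (κ * (n.choose (n / 2) : ℝ)) := by ring

end KS6_73.BT
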