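import Pool.Agent.KS6_73.BT.Small

/-!
# Boolean functions with few Walsh coefficients
-/

set_option autoImplicit false

namespace KS6_73.BT

open Finset Pool.Agent.Helper291.Bent

/-- The Walsh coefficient of the Boolean function `f` of `n` variables at the point `a`. -/
def walsh (n : ℕ) (f : (Fin n → ZMod 2) → ZMod 2) (a : Fin n → ZMod 2) : ℤ :=
  ∑ x : Fin n → ZMod 2, (-1 : ℤ) ^ ((f x + ∑ i, a i * x i).val)

/-- The position of a transform value does not depend on the function. -/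
theorem bf_walsh' (n k : ℕ) : ∃ a : Fin n → ZMod 2, ∀ g : (Fin n → ZMod 2) → ZMod 2,
    bf (sgn n g) n 0 k = walsh n g a := by
  obtain ⟨a, ha⟩ := J7.bf_aux n k
  refine ⟨fun i => a i, fun g => ?_⟩
  unfold walsh
  rw [ha, Finset.sum_range]
  refine Fintype.sum_bijective (fun w : Fin (2 ^ n) => bits n w) (J7.bits_bij n) _ _ fun w => ?_
  rw [mul_zero, zero_add, J7.neg_one_pow_add, mul_comm]
  congr 1
  rw [Finset.sum_range]
  rfl

/-- **Prescribed Walsh coefficients.** -/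
theorem prescribed (s : ℕ) (ε : ℝ) (hε : 0 < ε) : ∃ n₀ : ℕ, ∀ n : ℕ, n₀ ≤ n →
    ∀ A : (Fin n → ZMod 2) → Finset ℤ, (∀ a, (A a).card ≤ s) →
      (Nat.card {f : (Fin n → ZMod 2) → ZMod 2 // ∀ a, walsh n f a ∈ A a} : ℝ)
        ≤ (2 : ℝ) ^ (ε * 2 ^ n) := by
  classical
  obtain ⟨C0, hC0⟩ := family_small (s + 1) (by omega) ε hε
  refine ⟨C0, fun n hn A hA => ?_⟩
  set Ω := {f : (Fin n → ZMod 2) → ZMod 2 // ∀ a, walsh n f a ∈ A a} with hΩ
  have : Fintype Ω := Fintype.ofFinite Ω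
  rw [Nat.card_eq_fintype_card]
  choose pos hpos using bf_walsh' n
  by_cases hne : Nonempty Ω
  · apply hC0 Ω (fun g => sgn n g.1) n (fun k => A (pos k)) hn
    · intro k; exact (hA _).trans (by omega)
    · intro w u
      unfold sgn
      exact neg_one_pow_eq_or ℤ _
    · intro w k _
      rw [hpos]
      exact w.2 _
    · intro w w' h
      exact Subtype.ext (J7.sgn_inj n w.1 w'.1 h)
  · rw [not_nonempty_iff] at hne
    rw [Fintype.card_eq_zero]
    push_cast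
    positivity

lemma walsh_abs (n : ℕ) (f : (Fin n → ZMod 2) → ZMod 2) (a : Fin n → ZMod 2) :
    walsh n f a ∈ Finset.Icc (-(2 : ℤ) ^ n) (2 ^ n) := by
  have h1 : |walsh n f a| ≤ 2 ^ n := by
    unfold walsh
    refine (Finset.abs_sum_le_sum_abs _ _).trans ?_
    have h2 : ∀ x ∈ (univ : Finset (Fin n → ZMod 2)),
        |(-1 : ℤ) ^ ((f x + ∑ i, a i * x i).val)| ≤ 1 := by
      intro x _
      rw [abs_pow]; simp
    refine (Finset.sum_le_card_nsmul _ _ 1 h2).trans ?_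
    rw [Finset.card_univ, Fintype.card_fun, ZMod.card, Fintype.card_fin]
    simp
  rw [Finset.mem_Icc]
  exact abs_le.1 h1

/-- polynomials in `n` are small -/
lemma eventually_small (s : ℕ) (c : ℝ) (hc : 0 < c) :
    ∃ n₁ : ℕ, ∀ n : ℕ, n₁ ≤ n → ((n : ℝ) + 2) * s ≤ c * 2 ^ n := by
  have h1 : Filter.Tendsto (fun n : ℕ => (n : ℝ) ^ 1 / (2 : ℝ) ^ n) Filter.atTop (nhds 0) :=
    tendsto_pow_const_div_const_pow_of_one_lt 1 (by norm_num)
  have h2 : Filter.Tendsto (fun n : ℕ => (n : ℝ) ^ 0 / (2 : ℝ) ^ n) Filter.atTop (nhds 0) :=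
    tendsto_pow_const_div_const_pow_of_one_lt 0 (by norm_num)
  have h3 : Filter.Tendsto (fun n : ℕ => ((n : ℝ) ^ 1 / (2 : ℝ) ^ n +
      2 * ((n : ℝ) ^ 0 / (2 : ℝ) ^ n)) * (s : ℝ)) Filter.atTop (nhds ((0 + 2 * 0) * (s : ℝ))) :=
    (h1.add (h2.const_mul 2)).mul_const _
  have h4 : ∀ᶠ n : ℕ in Filter.atTop, ((n : ℝ) ^ 1 / (2 : ℝ) ^ n +
      2 * ((n : ℝ) ^ 0 / (2 : ℝ) ^ n)) * s < c := by
    apply h3.eventually_lt_const
    simpa using hc
  obtain ⟨n₁, hn₁⟩ := Filter.eventually_atTop.1 h4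
  refine ⟨n₁, fun n hn => ?_⟩
  have h5 := hn₁ n hn
  have h6 : (0 : ℝ) < 2 ^ n := by positivity
  have h7 : ((n : ℝ) ^ 1 / (2 : ℝ) ^ n + 2 * ((n : ℝ) ^ 0 / (2 : ℝ) ^ n)) * s
      = ((n : ℝ) + 2) * s / 2 ^ n := by
    field_simp
  rw [h7, div_lt_iff₀ h6] at h5
  exact h5.le

/-- **Few Walsh coefficients.** -/
theorem few (s : ℕ) (ε : ℝ) (hε : 0 < ε) : ∃ n₀ : ℕ, ∀ n : ℕ, n₀ ≤ n →
    (Nat.card {f : (Fin n → ZMod 2) → ZMod 2 // (Set.range (walsh n f)).ncard ≤ s} : ℝ)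
      ≤ (2 : ℝ) ^ (ε * 2 ^ n) := by
  classical
  obtain ⟨n₀, hn₀⟩ := prescribed s (ε / 2) (by linarith)
  obtain ⟨n₁, hn₁⟩ := eventually_small s (ε / 2) (by linarith)
  refine ⟨max n₀ n₁, fun n hn => ?_⟩
  have hN0 : (0 : ℝ) < (2 : ℝ) ^ (ε / 2 * 2 ^ n) := by positivity
  set I : Finset ℤ := Finset.Icc (-(2 : ℤ) ^ n) (2 ^ n) with hI
  have hIcard : (Fintype.card I : ℝ) ≤ (2 : ℝ) ^ (n + 2) := by
    rw [Fintype.card_coe, hI, Int.card_Icc]
    have h1 : ((2 : ℤ) ^ n + 1 - -(2 : ℤ) ^ n).toNat ≤ 2 ^ (n + 2) := by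
      have h2 : (1 : ℤ) ≤ 2 ^ n := one_le_pow₀ (by norm_num)
      have h3 : ((2 : ℤ) ^ (n + 2)) = 4 * 2 ^ n := by ring
      have h4 : ((2 ^ (n + 2) : ℕ) : ℤ) = 2 ^ (n + 2) := by push_cast; ring
      omega
    exact_mod_cast h1
  -- an enumeration of the values
  have hex : ∀ f : {f : (Fin n → ZMod 2) → ZMod 2 // (Set.range (walsh n f)).ncard ≤ s},
      ∃ t : Fin s → I, ∀ a, walsh n f.1 a ∈ univ.image (fun i => ((t i : I) : ℤ)) := by
    rintro ⟨f, hf⟩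
    set W : Finset ℤ := univ.image (walsh n f) with hW
    have hWc : W.card ≤ s := by
      have : (W : Set ℤ) = Set.range (walsh n f) := by rw [hW]; simp
      rwa [← Set.ncard_coe_finset, this]
    have hWI : W ⊆ I := by
      intro x hx
      rw [hW, Finset.mem_image] at hx
      obtain ⟨a, _, rfl⟩ := hx
      exact walsh_abs n f a
    have hWne : W.Nonempty := ⟨walsh n f 0, by rw [hW]; exact Finset.mem_image_of_mem _ (mem_univ _)⟩
    obtain ⟨x0, hx0⟩ := hWne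
    have hemb : Nonempty (W ↪ Fin s) := by
      apply Function.Embedding.nonempty_of_card_le
      rwa [Fintype.card_coe, Fintype.card_fin]
    obtain ⟨φ⟩ := hemb
    have : Nonempty W := ⟨⟨x0, hx0⟩⟩
    refine ⟨fun i => ⟨(Function.invFun φ i : W).1, hWI (Function.invFun φ i).2⟩, fun a => ?_⟩
    have ha : walsh n f a ∈ W := by rw [hW]; exact Finset.mem_image_of_mem _ (mem_univ _)
    rw [Finset.mem_image]
    refine ⟨φ ⟨_, ha⟩, mem_univ _, ?_⟩
    have h5 := Function.leftInverse_invFun φ.injective ⟨walsh n f a, ha⟩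
    simp only [h5]
  choose t ht using hex
  let Φ : {f : (Fin n → ZMod 2) → ZMod 2 // (Set.range (walsh n f)).ncard ≤ s} →
      (Σ u : Fin s → I, {f : (Fin n → ZMod 2) → ZMod 2 //
        ∀ a, walsh n f a ∈ univ.image (fun i => ((u i : I) : ℤ))}) :=
    fun f => ⟨t f, ⟨f.1, ht f⟩⟩
  have hΦ : Function.Injective Φ := by
    intro f g hfg
    apply Subtype.ext
    have h1 : (Φ f).2.1 = (Φ g).2.1 := by rw [hfg]
    exact h1
  have h1 := Nat.card_le_card_of_injective Φ hΦ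
  rw [Nat.card_sigma] at h1
  have h2 : (Nat.card {f : (Fin n → ZMod 2) → ZMod 2 // (Set.range (walsh n f)).ncard ≤ s} : ℝ)
      ≤ ∑ u : Fin s → I, (2 : ℝ) ^ (ε / 2 * 2 ^ n) := by
    refine (Nat.cast_le.2 h1).trans ?_
    push_cast
    apply Finset.sum_le_sum
    intro u _
    apply hn₀ n ((le_max_left _ _).trans hn) (fun _ => univ.image (fun i => ((u i : I) : ℤ)))
    intro a
    refine Finset.card_image_le.trans ?_
    simp
  refine h2.trans ?_
  rw [Finset.sum_const, nsmul_eq_mul, Finset.card_univ, Fintype.card_fun, Fintype.card_fin]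
  push_cast
  have h3 : (Fintype.card I : ℝ) ^ s ≤ (2 : ℝ) ^ (ε / 2 * 2 ^ n) := by
    calc (Fintype.card I : ℝ) ^ s ≤ ((2 : ℝ) ^ (n + 2)) ^ s :=
          pow_le_pow_left₀ (by positivity) hIcard s
      _ = (2 : ℝ) ^ (((n : ℝ) + 2) * s) := by
          rw [← pow_mul, ← Real.rpow_natCast]
          push_cast
          rfl
      _ ≤ (2 : ℝ) ^ (ε / 2 * 2 ^ n) :=
          Real.rpow_le_rpow_of_exponent_le (by norm_num) (hn₁ n ((le_max_right _ _).trans hn))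
  calc (Fintype.card I : ℝ) ^ s * (2 : ℝ) ^ (ε / 2 * 2 ^ n)
      ≤ (2 : ℝ) ^ (ε / 2 * 2 ^ n) * (2 : ℝ) ^ (ε / 2 * 2 ^ n) :=
        mul_le_mul_of_nonneg_right h3 hN0.le
    _ = (2 : ℝ) ^ (ε * 2 ^ n) := by
        rw [← Real.rpow_add (by norm_num)]
        congr 1
        ring

end KS6_73.BT
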